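import Pool.Agent.Helper42.CP.Gen
import Pool.Agent.Helper22.OV.Shift
import Pool.Agent.Helper92.CP.One

/-!
# Almost every centre: from a generic centre in the unit square to almost every centre in the plane, every origin, all orders `0 < p ≤ ∞`
-/

set_option autoImplicit false

open MeasureTheory Real Set

namespace Pool.Agent.Helper42.AC

open Pool.Agent.Helper22.AC (cntc)
open Pool.Agent.Helper22.AE (area)
open Pool.Agent.Helper22.OV (shf exists_shift shf_smooth cntc_shf area_shf)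
open Pool.Agent.Helper92.CP (lpN lpN_le)

/-- a pointwise bound and one moment -/
def Fix (E : ℝ → ℝ) (κ : ℝ) (m : ℕ) : Prop :=
  (∀ ε : ℝ, 0 < ε → ∃ C : ℝ, ∀ R : ℝ, 1 ≤ R → E R ≤ C * R ^ (κ + ε)) ∧
  (∀ ε : ℝ, 0 < ε → ∃ C : ℝ, ∀ X : ℝ, 1 ≤ X →
    ∫⁻ R in Icc X (2 * X), ENNReal.ofReal (E R ^ m) ≤ ENNReal.ofReal (C * X ^ (1 + (m : ℝ) / 2 + ε)))

/-- all orders `0 < p ≤ ∞` -/
theorem Fix.all {E : ℝ → ℝ} (hE : ∀ R, 0 ≤ E R) {κ : ℝ} (hκ : 0 ≤ κ) {m : ℕ} (hm : 0 < m) (h : Fix E κ m)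
    {p : ENNReal} (hp : 0 < p) {ε : ℝ} (hε : 0 < ε) : ∃ C : ℝ, ∀ X : ℝ, 1 ≤ X →
      lpN p X (fun R => ENNReal.ofReal (E R)) ≤
        ENNReal.ofReal (C * X ^ (1 / p.toReal + (1 / 2 + (κ - 1 / 2) * max 0 (1 - m / p.toReal)) + ε)) := by
  obtain ⟨hpt, hmom⟩ := h
  by_cases hp' : p = ⊤
  · subst hp'
    obtain ⟨C, hC⟩ := hpt ε hε
    refine ⟨|C| * 2 ^ (κ + ε), fun X hX => ?_⟩
    have hX0 : 0 < X := by linarith
    unfold lpN
    rw [if_pos rfl]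
    have e : 1 / (⊤ : ENNReal).toReal + (1 / 2 + (κ - 1 / 2) * max 0 (1 - (m : ℝ) / (⊤ : ENNReal).toReal)) + ε = κ + ε := by
      rw [ENNReal.toReal_top, div_zero, div_zero, sub_zero, max_eq_right zero_le_one]
      ring
    rw [e]
    refine iSup₂_le fun R hR => ENNReal.ofReal_le_ofReal ?_
    have hR0 : 0 < R := lt_of_lt_of_le hX0 hR.1
    have h1 := hC R (hX.trans hR.1)
    have h2 : R ^ (κ + ε) ≤ (2 * X) ^ (κ + ε) := Real.rpow_le_rpow hR0.le hR.2 (by linarith)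
    rw [Real.mul_rpow (by norm_num) hX0.le] at h2
    calc E R ≤ C * R ^ (κ + ε) := h1
      _ ≤ |C| * R ^ (κ + ε) := mul_le_mul_of_nonneg_right (le_abs_self C) (by positivity)
      _ ≤ |C| * (2 ^ (κ + ε) * X ^ (κ + ε)) := mul_le_mul_of_nonneg_left h2 (abs_nonneg C)
      _ = |C| * 2 ^ (κ + ε) * X ^ (κ + ε) := by ring
  · have hq : 0 < p.toReal := ENNReal.toReal_pos hp.ne' hp'
    obtain ⟨C, hC⟩ := Pool.Agent.Helper42.CP.all_moments (J := Unit) (ι := Unit) (m := m) (f := fun _ _ R => E R) hκ hm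
      (fun _ _ R => hE R) (fun δ hδ => by
        obtain ⟨C, hC⟩ := hpt δ hδ
        exact ⟨C, fun R hR _ _ => hC R hR⟩)
      (fun δ hδ => by
        obtain ⟨B, hB⟩ := hmom δ hδ
        refine ⟨B, fun X hX _ => ?_⟩
        simp only [ciSup_const]
        exact hB X hX) hq (show 0 < p.toReal * ε by positivity)
    refine ⟨|C| ^ (1 / p.toReal), fun X hX => ?_⟩
    refine lpN_le hp hp' hX (C := C) (e := 1 / 2 + (κ - 1 / 2) * max 0 (1 - m / p.toReal)) (ε := ε) ?_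
    have h := hC X hX ()
    simp only [ciSup_const] at h
    unfold Pool.Agent.Helper42.CP.ex at h
    rw [mul_one_div] at h
    refine le_trans (le_of_eq ?_) h
    refine lintegral_congr fun R => ?_
    rw [ENNReal.ofReal_rpow_of_nonneg (hE R) hq.le]

/-- the number of points does not change when the centre moves by an integer vector -/
theorem cntc_add (H : ℝ → ℝ) (c : ℝ × ℝ) (k : ℤ × ℤ) (R : ℝ) : cntc H (c.1 + k.1, c.2 + k.2) R = cntc H c R := by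
  unfold cntc
  congr 1
  refine Nat.card_congr ?_
  refine (Equiv.subtypeEquiv (Equiv.subRight k) fun a => ?_)
  refine forall_congr' fun t => ?_
  simp only [Equiv.subRight_apply, Prod.fst_sub, Prod.snd_sub]
  push_cast
  constructor <;> intro h <;> linarith

/-- from the unit square to the plane -/
theorem ae_plane {Q : ℝ × ℝ → Prop} (hper : ∀ (c : ℝ × ℝ) (k : ℤ × ℤ), Q c → Q (c.1 + k.1, c.2 + k.2))
    (h : ∀ᵐ c ∂(volume.restrict (Icc (0 : ℝ) 1 ×ˢ Icc (0 : ℝ) 1)), Q c) : ∀ᵐ c : ℝ × ℝ, Q c := by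
  rw [ae_restrict_iff' (measurableSet_Icc.prod measurableSet_Icc)] at h
  have h1 : ∀ k : ℤ × ℤ, ∀ᵐ c : ℝ × ℝ, c + (((k.1 : ℤ) : ℝ), ((k.2 : ℤ) : ℝ)) ∈ Icc (0 : ℝ) 1 ×ˢ Icc (0 : ℝ) 1 →
      Q (c + (((k.1 : ℤ) : ℝ), ((k.2 : ℤ) : ℝ))) := fun k =>
    (measurePreserving_add_right (volume : Measure (ℝ × ℝ)) (((k.1 : ℤ) : ℝ), ((k.2 : ℤ) : ℝ))).quasiMeasurePreserving.ae h
  rw [← ae_all_iff] at h1
  filter_upwards [h1] with c hc
  have h2 := hc (-⌊c.1⌋, -⌊c.2⌋) ?_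
  · have h3 := hper _ (⌊c.1⌋, ⌊c.2⌋) h2
    have e : ((c + (((-⌊c.1⌋ : ℤ) : ℝ), ((-⌊c.2⌋ : ℤ) : ℝ))).1 + ((⌊c.1⌋ : ℤ) : ℝ),
        (c + (((-⌊c.1⌋ : ℤ) : ℝ), ((-⌊c.2⌋ : ℤ) : ℝ))).2 + ((⌊c.2⌋ : ℤ) : ℝ)) = c := by
      ext <;> simp
    exact e ▸ h3
  · have a1 := Int.floor_le c.1
    have a2 := Int.lt_floor_add_one c.1
    have b1 := Int.floor_le c.2
    have b2 := Int.lt_floor_add_one c.2
    refine ⟨⟨?_, ?_⟩, ⟨?_, ?_⟩⟩ <;> simp <;> linarith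

/-- the error at the centre `c + R v` -/
noncomputable def Ev (H : ℝ → ℝ) (v c : ℝ × ℝ) (R : ℝ) : ℝ := |cntc H (c.1 + R * v.1, c.2 + R * v.2) R - area H * R ^ 2|

/-- almost every centre, all orders, every origin: from the blocks at a generic centre of the unit square -/
theorem ae_all {κ : ℝ} (hκ : 0 ≤ κ) {m : ℕ} (hm : 0 < m) {k : ℕ}
    (hC : ∀ {H : ℝ → ℝ}, Pool.Agent.Helper22.AE.IsSupp H → ContDiff ℝ k H → ∀ v : ℝ × ℝ,
      ∀ᵐ c ∂(volume.restrict (Icc (0 : ℝ) 1 ×ˢ Icc (0 : ℝ) 1)), Fix (Ev H v c) κ m)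
    (hk : 2 ≤ k) {H : ℝ → ℝ} (h3 : ContDiff ℝ k H) (hper : Function.Periodic H (2 * π)) (hr : ∀ t, 0 < H t + deriv (deriv H) t) :
    ∀ᵐ c : ℝ × ℝ, ∀ p : ENNReal, 0 < p → ∀ ε : ℝ, 0 < ε → ∃ C : ℝ, ∀ X : ℝ, 1 ≤ X →
      lpN p X (fun R => ENNReal.ofReal |cntc H c R - area H * R ^ 2|) ≤
        ENNReal.ofReal (C * X ^ (1 / p.toReal + (1 / 2 + (κ - 1 / 2) * max 0 (1 - m / p.toReal)) + ε)) := by
  obtain ⟨v, hv⟩ := exists_shift (h3.of_le (by exact_mod_cast hk)) hper hr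
  have h1 := hC hv (shf_smooth v h3) (-v.1, -v.2)
  have h2 : ∀ c : ℝ × ℝ, Ev (shf H v) (-v.1, -v.2) c = fun R => |cntc H c R - area H * R ^ 2| := by
    intro c
    funext R
    unfold Ev
    have e : (c.1 + R * (-v.1, -v.2).1, c.2 + R * (-v.1, -v.2).2) = (c.1 - R * v.1, c.2 - R * v.2) := by
      ext <;> simp <;> ring
    rw [e, cntc_shf, area_shf]
  simp only [h2] at h1
  have h4 : ∀ᵐ c : ℝ × ℝ, Fix (fun R => |cntc H c R - area H * R ^ 2|) κ m := by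
    refine ae_plane (fun c k hc => ?_) h1
    simp only [cntc_add]
    exact hc
  filter_upwards [h4] with c hc p hp ε hε
  exact hc.all (fun R => abs_nonneg _) hκ hm hp hε

end Pool.Agent.Helper42.AC
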